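import Pool.Agent.Helper40.BP.Main

/-!
# Closed manifolds in a theory of mod 2 cohomology

Poincaré duality and Wu's formula for the tangent bundle of a closed connected smooth manifold, in
a theory of mod 2 cohomology and vector bundles in the sense of `Pool.Agent.Helper40.BP.Theory`.
-/

set_option autoImplicit false

namespace Pool.Agent.Helper55.BM

open Finset Pool.Agent.Helper40.BP

universe u v

/-- The properties of a closed connected smooth manifold `M` of dimension `n` which we use: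
Poincaré duality, the tangent bundle, and Wu's formula. -/
structure ClosedManifold (T : Theory.{u, v}) (M : T.Space) (n : ℕ) where
  /-- the nonzero class of degree `n` -/
  mu : (T.coh M).H
  mu_mem : mu ∈ (T.coh M).gr n
  mu_ne : mu ≠ 0
  top : ∀ z ∈ (T.coh M).gr n, z = 0 ∨ z = mu
  /-- Poincaré duality -/
  dual : ∀ i ≤ n, ∀ a ∈ (T.coh M).gr i, a ≠ 0 → ∃ b ∈ (T.coh M).gr (n - i), a * b = mu
  /-- the tangent bundle -/
  tangent : T.Bundle M
  /-- the Wu classes -/
  wu : ℕ → (T.coh M).H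
  wu_mem : ∀ i, wu i ∈ (T.coh M).gr i
  wu_mul : ∀ i ≤ n, ∀ z ∈ (T.coh M).gr (n - i), wu i * z = (T.coh M).Sq i z
  /-- Wu's formula for the Stiefel-Whitney classes of the tangent bundle -/
  wu_formula : ∀ i, T.sw tangent i = ∑ p ∈ antidiagonal i, (T.coh M).Sq p.1 (wu p.2)

/-- `k` is `1`, `2`, `4` or `8` -/
def HopfDegree (k : ℕ) : Prop := k = 1 ∨ k = 2 ∨ k = 4 ∨ k = 8

variable {T : Theory.{u, v}} {M : T.Space} {n : ℕ} (C : ClosedManifold T M n)

/-- the first part of the theorem: the class of degree `q`, `n = m * k + q` -/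
def ClosedManifold.TopPart (k m q : ℕ) (x : (T.coh M).H) : Prop :=
  (∃ y ∈ (T.coh M).gr q, x ^ m * y = C.mu ∧ (∀ z ∈ (T.coh M).gr q, z = 0 ∨ z = y) ∧
      ∀ i, 0 < i → i < k → ∀ u ∈ (T.coh M).gr i, u * y = 0) ∧
    (q = 0 → ∀ i, 0 < i → i < k → ∀ u ∈ (T.coh M).gr i, u = 0)

/-- the third part of the theorem: four conditions for `k` to be `1`, `2`, `4` or `8`,
`n = m * k + q` -/
def ClosedManifold.Answers (k m q : ℕ) (x : (T.coh M).H) : Prop :=
  (Even m → ∀ E : T.Bundle M, (∀ j, 2 ^ j < k → T.sw E (2 ^ j) = T.sw C.tangent (2 ^ j)) →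
      T.sw E k = 0 → HopfDegree k) ∧
    (Even m → (2 < k → T.sw C.tangent 2 ∈ T.integral M) →
      (∀ j, 2 ≤ j → 2 ^ j < k → T.sw C.tangent (2 ^ j) = 0) → HopfDegree k) ∧
    (Odd m → (∀ j, 2 ^ j < k → (T.coh M).Sq (2 ^ j) x = x * T.sw C.tangent (2 ^ j)) →
      HopfDegree k) ∧
    (q = 0 ∨ (∀ i, 0 < i → i < k → i ≠ q → ∀ u ∈ (T.coh M).gr i, u = 0) → HopfDegree k)

end Pool.Agent.Helper55.BM
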