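import Pool.Agent.Helper55.BM.Defs

set_option autoImplicit false

namespace Pool.Agent.Helper55.BM

open Finset Pool.Agent.Helper40.BP

universe u v

section Alg

variable {A : UAlg.{u}}

theorem nsmul_even {n : ℕ} (hn : Even n) (a : A.H) : n • a = 0 := by
  obtain ⟨t, rfl⟩ := hn
  rw [add_smul, UAlg.add_self]

theorem pow_mem {k : ℕ} {x : A.H} (hx : x ∈ A.gr k) (n : ℕ) : x ^ n ∈ A.gr (n * k) := by
  have := SetLike.pow_mem_graded n hx
  simpa [smul_eq_mul] using this

theorem divx {k n : ℕ} {x : A.H} (hper : A.Periodic k x n) (j d : ℕ) (hjd : j * k + d < n)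
    {z : A.H} (hz : z ∈ A.gr (j * k + d)) : ∃ c ∈ A.gr d, z = x ^ j * c := by
  induction j generalizing z with
  | zero => exact ⟨z, by simpa using hz, by simp⟩
  | succ j ih =>
    rw [add_mul, one_mul] at hjd
    obtain ⟨u, hu, hxu⟩ := hper.1 (j * k + d) (by omega) z
      (by rw [add_mul, one_mul] at hz; rwa [show j * k + d + k = j * k + k + d by omega])
    obtain ⟨c, hc, huc⟩ := ih (by omega) hu
    exact ⟨c, hc, by rw [← hxu, huc, pow_succ', mul_assoc]⟩

theorem inj {k n : ℕ} {x : A.H} (hx : x ∈ A.gr k) (hper : A.Periodic k x n) (j d : ℕ) (hd : 0 < d)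
    (hjd : j * k + d ≤ n) {z : A.H} (hz : z ∈ A.gr d) (h0 : x ^ j * z = 0) : z = 0 := by
  induction j with
  | zero => simpa using h0
  | succ j ih =>
    rw [add_mul, one_mul] at hjd
    apply ih (by omega)
    apply hper.2 (j * k + d) (by omega) (by omega) _ (UAlg.mul_mem (pow_mem hx j) hz)
    rw [← mul_assoc, ← pow_succ', h0]

end Alg

namespace ClosedManifold

variable {T : Theory.{u, v}} {M : T.Space} {n k m q : ℕ} (C : ClosedManifold T M n)
  {x : (T.coh M).H} (h : (T.coh M).MinimalPeriodic k x) (hper : (T.coh M).Periodic k x n)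
  (hn : 2 * k ≤ n) (hnq : n = m * k + q) (hq : q < k)

include C h hper hn hnq hq

omit C in
theorem two_le_m : 2 ≤ m := by
  by_contra hm
  have hk := h.pos
  have : m < 2 := by omega
  interval_cases m <;> omega

theorem exists_y : ∃ y ∈ (T.coh M).gr q, x ^ m * y = C.mu ∧
    ∀ z ∈ (T.coh M).gr q, z = 0 ∨ z = y := by
  have hk := h.pos
  have hm := two_le_m h hper hn hnq hq
  obtain ⟨m, rfl⟩ : ∃ m', m = m' + 1 := ⟨m - 1, by omega⟩
  obtain ⟨b, hb, hxb⟩ := C.dual k (by omega) x h.mem h.ne_zero
  rw [add_mul, one_mul] at hnq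
  obtain ⟨y, hy, rfl⟩ := divx hper m q (by omega) (z := b)
    (by rwa [show m * k + q = n - k by omega])
  rw [← mul_assoc, ← pow_succ'] at hxb
  refine ⟨y, hy, hxb, ?_⟩
  intro z hz
  rcases Nat.eq_zero_or_pos q with h0 | h0
  · subst h0
    have hy0 : y ≠ 0 := by
      rintro rfl
      exact C.mu_ne (by rw [← hxb, mul_zero])
    rcases (T.coh M).connected y hy with h1 | h1
    · exact absurd h1 hy0
    · rw [h1]
      exact (T.coh M).connected z hz
  · have hmem : x ^ (m + 1) * z ∈ (T.coh M).gr n := by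
      have := UAlg.mul_mem (pow_mem h.mem (m + 1)) hz
      rwa [show (m + 1) * k + q = n by rw [add_mul, one_mul]; omega] at this
    rcases C.top _ hmem with h1 | h1
    · left
      exact inj h.mem hper (m + 1) q h0 (by rw [add_mul, one_mul]; omega) hz h1
    · right
      apply UAlg.eq_of_sub
      apply inj h.mem hper (m + 1) q h0 (by rw [add_mul, one_mul]; omega)
        (Submodule.sub_mem _ hz hy)
      rw [mul_sub, h1, hxb, sub_self]

theorem mul_y {y : (T.coh M).H} (hy : y ∈ (T.coh M).gr q) {e : ℕ} (he : 0 < e)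
    (hek : e < k) {u : (T.coh M).H} (hu : u ∈ (T.coh M).gr e) : u * y = 0 := by
  have hk := h.pos
  have hm := two_le_m h hper hn hnq hq
  by_contra hne
  obtain ⟨m, rfl⟩ : ∃ m', m = m' + 1 := ⟨m - 1, by omega⟩
  rw [add_mul, one_mul] at hnq
  have hmk : k ≤ m * k := by
    have := Nat.mul_le_mul_right k (show 1 ≤ m by omega)
    omega
  obtain ⟨b, hb, hxb⟩ := C.dual (e + q) (by omega) (u * y) (UAlg.mul_mem hu hy) hne
  obtain ⟨d, hd, rfl⟩ := divx hper m (k - e) (by omega) (z := b)
    (by rwa [show m * k + (k - e) = n - (e + q) by omega])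
  apply C.mu_ne
  rw [← hxb]
  calc u * y * (x ^ m * d) = x ^ m * y * (u * d) := by ring
    _ = 0 := by rw [h.prod he (by omega) (by omega) hu hd, mul_zero]

theorem mul_Sq_y {y : (T.coh M).H} (hy : y ∈ (T.coh M).gr q) : ∀ i, 0 < i → i < k →
    ∀ u ∈ (T.coh M).gr (k - i), u * (T.coh M).Sq i y = 0 := by
  intro i
  induction i using Nat.strong_induction_on with
  | _ i ih =>
    intro hi hik u hu
    have h1 : (T.coh M).Sq i (u * y) = 0 := by
      rw [C.mul_y h hper hn hnq hq hy (by omega) (by omega) hu, map_zero]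
    rw [(T.coh M).cartan, Finset.sum_eq_single (0, i)] at h1
    · simpa [(T.coh M).Sq_zero] using h1
    · rintro ⟨a, b⟩ hab hne
      rw [Finset.HasAntidiagonal.mem_antidiagonal] at hab
      simp only [ne_eq, Prod.mk.injEq, not_and] at hne hab ⊢
      have ha : 0 < a := by
        rcases Nat.eq_zero_or_pos a with h0 | h0
        · exact absurd (by omega) (hne h0)
        · exact h0
      rcases Nat.eq_zero_or_pos b with h0 | h0
      · rw [show a = i by omega, h.sq_eq_zero hi hik hu, zero_mul]
      · apply ih b (by omega) h0 (by omega)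
        have := (T.coh M).Sq_mem a _ u hu
        rwa [show k - i + a = k - b by omega] at this
    · intro hn
      exact absurd (by simp) hn

omit C in
theorem Sq_k_pow : ∀ j, j * k + k ≤ n → (T.coh M).Sq k (x ^ j) = j • x ^ (j + 1) := by
  have hk := h.pos
  intro j
  induction j with
  | zero =>
    intro _
    rw [pow_zero, UAlg.Sq_one hk, zero_smul]
  | succ j ih =>
    intro hj
    rw [add_mul, one_mul] at hj
    have hm1 : (0, k) ∈ antidiagonal k := by simp
    have hm2 : (k, 0) ∈ (antidiagonal k).erase (0, k) := by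
      simp only [mem_erase, ne_eq, Prod.mk.injEq, Finset.HasAntidiagonal.mem_antidiagonal, add_zero,
        and_true]
      omega
    rw [pow_succ', (T.coh M).cartan, ← Finset.add_sum_erase _ _ hm1, ← Finset.add_sum_erase _ _ hm2,
      Finset.sum_eq_zero]
    · simp only [(T.coh M).Sq_zero]
      rw [ih (by omega), (T.coh M).Sq_self k x h.mem, add_zero, mul_smul_comm, ← pow_succ', add_smul,
        one_smul]
      ring
    · rintro ⟨a, b⟩ hab
      simp only [mem_erase, Finset.HasAntidiagonal.mem_antidiagonal, ne_eq, Prod.mk.injEq] at hab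
      simp only
      obtain ⟨h1, h2, h3⟩ := hab
      have ha : 0 < a := by
        rcases Nat.eq_zero_or_pos a with h0 | h0
        · exact absurd ⟨h0, by omega⟩ h2
        · exact h0
      have hb : 0 < b := by
        rcases Nat.eq_zero_or_pos b with h0 | h0
        · exact absurd ⟨by omega, h0⟩ h1
        · exact h0
      obtain ⟨w, hw, hxw⟩ := hper.1 a (by omega) ((T.coh M).Sq a x)
        (by rw [add_comm]; exact (T.coh M).Sq_mem a k x h.mem)
      obtain ⟨u, hu, hxu⟩ := divx hper j b (by omega) (z := (T.coh M).Sq b (x ^ j))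
        ((T.coh M).Sq_mem b _ _ (pow_mem h.mem j))
      rw [← hxw, hxu]
      calc x * w * (x ^ j * u) = x * x ^ j * (w * u) := by ring
        _ = 0 := by rw [h.prod ha hb (by omega) hw hu, mul_zero]

theorem wu_k : C.wu k = (m - 1) • x := by
  have hk := h.pos
  have hm := two_le_m h hper hn hnq hq
  obtain ⟨y, hy, hmu, hy'⟩ := C.exists_y h hper hn hnq hq
  obtain ⟨m, rfl⟩ : ∃ m', m = m' + 1 := ⟨m - 1, by omega⟩
  have hnq' := hnq
  rw [add_mul, one_mul] at hnq'
  have hmem : x ^ m * y ∈ (T.coh M).gr (n - k) := by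
    have := UAlg.mul_mem (pow_mem h.mem m) hy
    rwa [show m * k + q = n - k by omega] at this
  have h1 := C.wu_mul k (by omega) _ hmem
  have h2 : (T.coh M).Sq k (x ^ m * y) = m • C.mu := by
    have hm1 : (k, 0) ∈ antidiagonal k := by simp
    rw [(T.coh M).cartan, ← Finset.add_sum_erase _ _ hm1, Finset.sum_eq_zero, add_zero]
    · simp only [(T.coh M).Sq_zero]
      rw [Sq_k_pow h hper hn hnq hq m (by omega), ← hmu, smul_mul_assoc]
    · rintro ⟨a, b⟩ hab
      simp only [mem_erase, Finset.HasAntidiagonal.mem_antidiagonal, ne_eq, Prod.mk.injEq] at hab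
      simp only
      obtain ⟨h1, h2⟩ := hab
      have hb : 0 < b := by
        rcases Nat.eq_zero_or_pos b with h0 | h0
        · exact absurd ⟨by omega, h0⟩ h1
        · exact h0
      rcases Nat.lt_or_ge b k with hbk | hbk
      · obtain ⟨u, hu, hxu⟩ := divx hper m a (by omega) (z := (T.coh M).Sq a (x ^ m))
          ((T.coh M).Sq_mem a _ _ (pow_mem h.mem m))
        rw [hxu, mul_assoc, C.mul_Sq_y h hper hn hnq hq hy b hb hbk u
          (by rwa [show k - b = a by omega]), mul_zero]
      · rw [(T.coh M).Sq_high b q y hy (by omega), mul_zero]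
  rw [h2] at h1
  have h3 : x * (x ^ m * y) = C.mu := by rw [← mul_assoc, ← pow_succ', hmu]
  simp only [Nat.add_sub_cancel]
  rcases Nat.even_or_odd m with he | ho
  · rw [nsmul_even he] at h1 ⊢
    rcases h.periodic.top hk (C.wu_mem k) with h4 | h4
    · exact h4
    · rw [h4, h3] at h1
      exact absurd h1 C.mu_ne
  · rw [UAlg.nsmul_odd ho] at h1 ⊢
    rcases h.periodic.top hk (C.wu_mem k) with h4 | h4
    · rw [h4, zero_mul] at h1
      exact absurd h1.symm C.mu_ne
    · exact h4

theorem sw_k : T.sw C.tangent k = (m - 1) • x := by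
  have hk := h.pos
  rw [C.wu_formula, Finset.sum_eq_single (0, k)]
  · simp only [(T.coh M).Sq_zero]
    exact C.wu_k h hper hn hnq hq
  · rintro ⟨a, b⟩ hab hne
    rw [Finset.HasAntidiagonal.mem_antidiagonal] at hab
    simp only [ne_eq, Prod.mk.injEq, not_and] at hne hab ⊢
    have ha : 0 < a := by
      rcases Nat.eq_zero_or_pos a with h0 | h0
      · exact absurd (by omega) (hne h0)
      · exact h0
    rcases Nat.eq_zero_or_pos b with h0 | h0
    · exact (T.coh M).Sq_high a b _ (C.wu_mem b) (by omega)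
    · exact h.sq_eq_zero ha (by omega) (by rw [show k - a = b by omega]; exact C.wu_mem b)
  · intro hn
    exact absurd (by simp) hn

end ClosedManifold

/-- the Stiefel-Whitney classes below `k` are determined by those with index a power of two -/
theorem sw_eq_of_pow {T : Theory.{u, v}} {M : T.Space} {k : ℕ} (E F : T.Bundle M)
    (hs : ∀ j, 2 ^ j < k → T.sw E (2 ^ j) = T.sw F (2 ^ j)) :
    ∀ a, a < k → T.sw E a = T.sw F a := by
  intro a
  induction a using Nat.strong_induction_on with
  | _ a ih =>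
    intro hak
    rcases Nat.eq_zero_or_pos a with h0 | h0
    · subst h0
      rw [T.sw_zero, T.sw_zero]
    by_cases hp : ∃ i, a = 2 ^ i
    · obtain ⟨i, rfl⟩ := hp
      exact hs i hak
    push Not at hp
    obtain ⟨b, s, hab, hb, hbs⟩ := UAlg.exists_adem a h0 hp
    have key : ∀ r j, r < a → j < a →
        (T.coh M).thomSq (T.sw E) r (T.sw E j) = (T.coh M).thomSq (T.sw F) r (T.sw F j) := by
      intro r j hr hj
      rw [UAlg.thomSq, UAlg.thomSq]
      apply Finset.sum_congr rfl
      rintro ⟨c, d⟩ hcd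
      rw [Finset.HasAntidiagonal.mem_antidiagonal] at hcd
      simp only at hcd ⊢
      rw [ih j hj (by omega), ih d (by omega) (by omega)]
    have form : ∀ G : T.Bundle M, T.sw G (b + 2 ^ s) =
        (T.coh M).thomSq (T.sw G) b (T.sw G (2 ^ s)) - ∑ c ∈ range (b / 2),
        (2 ^ s - (c + 1) - 1).choose (b - 2 * (c + 1)) •
          (T.coh M).thomSq (T.sw G) (b + 2 ^ s - (c + 1)) (T.sw G (c + 1)) := by
      intro G
      have h2 := T.sw_adem G b (2 ^ s) (by omega)
      rw [Finset.sum_range_succ'] at h2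
      simp only [Nat.sub_zero, mul_zero, T.sw_zero, UAlg.thomSq_one] at h2
      rw [UAlg.nsmul_odd (UAlg.odd_choose s b hbs)] at h2
      rw [h2]; ring
    rw [hab, form E, form F, key b (2 ^ s) (by omega) (by omega)]
    congr 1
    apply Finset.sum_congr rfl
    intro c hc
    rw [mem_range] at hc
    rw [key _ _ (by omega) (by omega)]

theorem hopf_of_lt {T : Theory.{u, v}} {M : T.Space} {k l : ℕ} {x : (T.coh M).H}
    (_ : (T.coh M).MinimalPeriodic k x) (hl : k = 2 ^ l) (hl4 : l < 4) : HopfDegree k := by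
  subst hl
  rw [HopfDegree]
  interval_cases l <;> simp

namespace ClosedManifold

variable {T : Theory.{u, v}} {M : T.Space} {n k m q : ℕ} (C : ClosedManifold T M n)
  {x : (T.coh M).H} (h : (T.coh M).MinimalPeriodic k x) (hper : (T.coh M).Periodic k x n)
  (hn : 2 * k ≤ n) (hnq : n = m * k + q) (hq : q < k)

include C h hper hn hnq hq

theorem even_case (hT : T.Adams) (hm : Even m) (E : T.Bundle M)
    (hE : ∀ j, 2 ^ j < k → T.sw E (2 ^ j) = T.sw C.tangent (2 ^ j)) (hEk : T.sw E k = 0) :
    HopfDegree k := by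
  have hk := h.pos
  have hm2 := two_le_m h hper hn hnq hq
  obtain ⟨l, hl⟩ := h.pow_two
  rcases Nat.lt_or_ge l 4 with hl4 | hl4
  · exact hopf_of_lt h hl hl4
  exfalso
  have hEa := sw_eq_of_pow E C.tangent hE
  obtain ⟨F, hF⟩ := T.compl E
  have hlow : ∀ i, 0 < i → i < k → T.sw (T.add C.tangent F) i = 0 := by
    intro i hi hik
    rw [← hF i hi, T.sw_add, T.sw_add]
    apply Finset.sum_congr rfl
    rintro ⟨a, b⟩ hab
    rw [Finset.HasAntidiagonal.mem_antidiagonal] at hab
    simp only at hab ⊢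
    rw [hEa a (by omega)]
  have htop : T.sw (T.add C.tangent F) k = x := by
    have hmem : (k, 0) ∈ antidiagonal k := by simp
    have h1 := T.sw_add E F k
    rw [hF k hk, ← Finset.add_sum_erase _ _ hmem] at h1
    simp only [hEk, zero_mul, zero_add] at h1
    rw [T.sw_add, ← Finset.add_sum_erase _ _ hmem]
    simp only [T.sw_zero, mul_one]
    have h2 : ∑ p ∈ (antidiagonal k).erase (k, 0), T.sw C.tangent p.1 * T.sw F p.2 =
        ∑ p ∈ (antidiagonal k).erase (k, 0), T.sw E p.1 * T.sw F p.2 := by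
      apply Finset.sum_congr rfl
      rintro ⟨a, b⟩ hab
      simp only [mem_erase, Finset.HasAntidiagonal.mem_antidiagonal, ne_eq, Prod.mk.injEq] at hab
      simp only
      rw [hEa a (by omega)]
    rw [h2, ← h1, add_zero, C.sw_k h hper hn hnq hq, UAlg.nsmul_odd]
    obtain ⟨t, ht⟩ := hm
    exact ⟨t - 1, by omega⟩
  have hdec := hT M (T.add C.tangent F) l hl4 0 1 SetLike.GradedOne.one_mem (fun i hi => by
    rw [UAlg.thomSq_one]
    exact hlow _ (by positivity) (by rw [hl]; exact Nat.pow_lt_pow_right (by norm_num) hi))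
  rw [UAlg.thomSq_one, ← hl, htop, zero_add] at hdec
  obtain ⟨v, hv, hsum⟩ := hdec
  apply h.ne_zero
  rw [hsum]
  apply Finset.sum_eq_zero
  intro r hr
  rw [mem_Ioo] at hr
  have hvr := hv r hr.1 hr.2 (by omega)
  rw [UAlg.thomSq, Finset.sum_eq_single (r, 0)]
  · simp only
    rw [h.sq_eq_zero hr.1 hr.2 hvr, zero_mul]
  · rintro ⟨a, b⟩ hab hne
    rw [Finset.HasAntidiagonal.mem_antidiagonal] at hab
    simp only [ne_eq, Prod.mk.injEq, not_and] at hne hab ⊢
    have hb : 0 < b := by
      rcases Nat.eq_zero_or_pos b with h0 | h0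
      · exact absurd h0 (hne (by omega))
      · exact h0
    rw [hlow b hb (by omega), mul_zero]
  · intro hn
    exact absurd (by simp) hn

theorem odd_case (hT : T.Adams) (hm : Odd m)
    (hs : ∀ j, 2 ^ j < k → (T.coh M).Sq (2 ^ j) x = x * T.sw C.tangent (2 ^ j)) :
    HopfDegree k := by
  apply Theory.mem_of_bundle hT h C.tangent _ hs
  rw [C.sw_k h hper hn hnq hq, nsmul_even]
  obtain ⟨t, ht⟩ := hm
  exact ⟨t, by omega⟩

theorem spin_case (hT : T.Adams) (hm : Even m) (h2 : 2 < k → T.sw C.tangent 2 ∈ T.integral M)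
    (hs : ∀ j, 2 ≤ j → 2 ^ j < k → T.sw C.tangent (2 ^ j) = 0) : HopfDegree k := by
  obtain ⟨l, hl⟩ := h.pow_two
  rcases Nat.lt_or_ge l 4 with hl4 | hl4
  · exact hopf_of_lt h hl hl4
  have hk16 : 2 ^ 4 ≤ k := by
    rw [hl]
    exact Nat.pow_le_pow_right (by norm_num) hl4
  obtain ⟨E, hE, hEw⟩ := T.line (T.sw C.tangent 1) (T.sw_mem _ _)
  obtain ⟨F, hF, hF1, hF2⟩ := T.complexLine _ (h2 (by omega))
  have hr : T.rank (T.add E F) = 3 := by rw [T.rank_add, hE, hF]
  apply C.even_case h hper hn hnq hq hT hm (T.add E F) _ (T.sw_high _ k (by omega))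
  intro i hi
  rcases Nat.lt_or_ge i 2 with hi2 | hi2
  · interval_cases i
    · rw [pow_zero, T.sw_add, Finset.Nat.sum_antidiagonal_eq_sum_range_succ_mk]
      simp [Finset.sum_range_succ, T.sw_zero, hEw, hF1]
    · rw [pow_one, T.sw_add, Finset.Nat.sum_antidiagonal_eq_sum_range_succ_mk]
      simp [Finset.sum_range_succ, T.sw_zero, hF1, hF2, T.sw_high E 2 (by omega)]
  · rw [hs i hi2 hi, T.sw_high _ (2 ^ i) (by
      have : 2 ^ 2 ≤ 2 ^ i := Nat.pow_le_pow_right (by norm_num) hi2
      omega)]

theorem one_class (hT : T.Adams)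
    (h0 : ∀ i, 0 < i → i < k → i ≠ q → ∀ u ∈ (T.coh M).gr i, u = 0) : HopfDegree k := by
  have hk := h.pos
  have hm2 := two_le_m h hper hn hnq hq
  have h2k : k + k ≤ m * k := by
    have := Nat.mul_le_mul_right k hm2
    omega
  -- the operation on `x`
  obtain ⟨w, hw, hxw⟩ := hper.1 q (by omega) ((T.coh M).Sq q x)
    (by rw [add_comm]; exact (T.coh M).Sq_mem q k x h.mem)
  have hSqx : ∀ i, 0 < i → i < k → i ≠ q → (T.coh M).Sq i x = 0 := by
    intro i hi hik hiq
    obtain ⟨u, hu, hxu⟩ := hper.1 i (by omega) ((T.coh M).Sq i x)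
      (by rw [add_comm]; exact (T.coh M).Sq_mem i k x h.mem)
    rw [← hxu, h0 i hi hik hiq u hu, mul_zero]
  have hpow : ∀ j, 0 < q → (T.coh M).Sq q (x ^ j) = j • (x ^ j * w) := by
    intro j hq0
    induction j with
    | zero =>
      rw [pow_zero, UAlg.Sq_one hq0, zero_smul]
    | succ j ih =>
      have hm1 : (0, q) ∈ antidiagonal q := by simp
      have hm2 : (q, 0) ∈ (antidiagonal q).erase (0, q) := by
        simp only [mem_erase, ne_eq, Prod.mk.injEq, Finset.HasAntidiagonal.mem_antidiagonal, add_zero,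
        and_true]
        omega
      rw [pow_succ', (T.coh M).cartan, ← Finset.add_sum_erase _ _ hm1,
        ← Finset.add_sum_erase _ _ hm2, Finset.sum_eq_zero]
      · simp only [(T.coh M).Sq_zero]
        rw [ih, ← hxw, add_zero, mul_smul_comm, add_smul, one_smul]
        congr 1
        · rw [← mul_assoc]
        · ring
      · rintro ⟨a, b⟩ hab
        simp only [mem_erase, Finset.HasAntidiagonal.mem_antidiagonal, ne_eq, Prod.mk.injEq] at hab
        simp only
        obtain ⟨h1, h2, h3⟩ := hab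
        have ha : 0 < a := by
          rcases Nat.eq_zero_or_pos a with h0 | h0
          · exact absurd ⟨h0, by omega⟩ h2
          · exact h0
        have hb : 0 < b := by
          rcases Nat.eq_zero_or_pos b with h0 | h0
          · exact absurd ⟨by omega, h0⟩ h1
          · exact h0
        rw [hSqx a ha (by omega) (by omega), zero_mul]
  -- the Stiefel-Whitney classes of the tangent bundle
  have hsw : ∀ i, 0 < i → i < k → i ≠ q → T.sw C.tangent i = 0 := fun i hi hik hiq =>
    h0 i hi hik hiq _ (T.sw_mem _ _)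
  have hswq : 0 < q → T.sw C.tangent q = C.wu q := by
    intro hq0
    rw [C.wu_formula, Finset.sum_eq_single (0, q)]
    · simp only [(T.coh M).Sq_zero]
    · rintro ⟨a, b⟩ hab hne
      rw [Finset.HasAntidiagonal.mem_antidiagonal] at hab
      simp only [ne_eq, Prod.mk.injEq, not_and] at hne hab ⊢
      have ha : 0 < a := by
        rcases Nat.eq_zero_or_pos a with h0 | h0
        · exact absurd (by omega) (hne h0)
        · exact h0
      rcases Nat.eq_zero_or_pos b with hb | hb
      · exact (T.coh M).Sq_high a b _ (C.wu_mem b) (by omega)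
      · rw [h0 b hb (by omega) (by omega) _ (C.wu_mem b), map_zero]
    · intro hn
      exact absurd (by simp) hn
  have hwu : 0 < q → x ^ m * C.wu q = m • (x ^ m * w) := by
    intro hq0
    rw [← hpow m hq0, ← C.wu_mul q (by omega) (x ^ m)
      (by rw [show n - q = m * k by omega]; exact pow_mem h.mem m), mul_comm]
  rcases Nat.even_or_odd m with he | ho
  · have hwq : 0 < q → C.wu q = 0 := by
      intro hq0
      apply inj h.mem hper m q hq0 (by omega) (C.wu_mem q)
      rw [hwu hq0, nsmul_even he]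
    have hall : ∀ i, 0 < i → i < k → T.sw C.tangent i = 0 := by
      intro i hi hik
      by_cases hiq : i = q
      · subst hiq
        rw [hswq hi, hwq hi]
      · exact hsw i hi hik hiq
    obtain ⟨F, hF⟩ := T.compl C.tangent
    apply C.even_case h hper hn hnq hq hT he (T.add C.tangent F) _ (hF k hk)
    intro j hj
    rw [hF _ (by positivity), hall _ (by positivity) hj]
  · have hwq : 0 < q → C.wu q = w := by
      intro hq0
      apply UAlg.eq_of_sub
      apply inj h.mem hper m q hq0 (by omega) (Submodule.sub_mem _ (C.wu_mem q) hw)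
      rw [mul_sub, hwu hq0, UAlg.nsmul_odd ho, sub_self]
    apply C.odd_case h hper hn hnq hq hT ho
    intro j hj
    have hj0 : 0 < 2 ^ j := by positivity
    by_cases hjq : 2 ^ j = q
    · rw [hjq, ← hxw, hswq (by omega), hwq (by omega)]
    · rw [hSqx _ hj0 hj hjq, hsw _ hj0 hj hjq, mul_zero]

theorem low_zero (hq0 : q = 0) : ∀ i, 0 < i → i < k → ∀ u ∈ (T.coh M).gr i, u = 0 := by
  subst hq0
  intro i hi hik u hu
  have := C.mul_y h hper hn hnq hq (y := 1) SetLike.GradedOne.one_mem hi hik hu
  rwa [mul_one] at this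

theorem main : C.TopPart k m q x ∧ (C.wu k = (m - 1) • x ∧ T.sw C.tangent k = (m - 1) • x) ∧
    (T.Adams → C.Answers k m q x) := by
  refine ⟨⟨?_, ?_⟩, ⟨C.wu_k h hper hn hnq hq, C.sw_k h hper hn hnq hq⟩, ?_⟩
  · obtain ⟨y, hy, hmu, hy'⟩ := C.exists_y h hper hn hnq hq
    exact ⟨y, hy, hmu, hy', fun i hi hik u hu => C.mul_y h hper hn hnq hq hy hi hik hu⟩
  · exact C.low_zero h hper hn hnq hq
  · intro hT
    exact ⟨fun hm E hE hEk => C.even_case h hper hn hnq hq hT hm E hE hEk,
      fun hm h2 hs => C.spin_case h hper hn hnq hq hT hm h2 hs,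
      fun hm hs => C.odd_case h hper hn hnq hq hT hm hs,
      fun h0 => C.one_class h hper hn hnq hq hT (h0.elim
        (fun h1 i hi hik _ => C.low_zero h hper hn hnq hq h1 i hi hik) id)⟩

end ClosedManifold

end Pool.Agent.Helper55.BM
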